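import Pool.Agent.KS6_67.SOC.Classify

set_option autoImplicit false

/-! # MP_f4da35_lc: all strong omniscient reductions between the theorems `RT^n_k` -/

namespace Pool.Agent.Results.MP_f4da35_lc.Classification

open Pool.Agent.KS6_67.SOC

/-- For all exponents `m`, `n` and all numbers of colours `l`, `k ≥ 1`: `RT^m_l ≤_soc RT^n_k` if
and only if `l = 1` or `m = 0` (the trivial cases), or `m < n` and `k ≥ 2`, or `m = n` and `l ≤ k`.
Moreover, whenever the reduction exists, there is one in which every infinite homogeneous set for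
`g` is itself homogeneous for `f`. In particular `RT^n_{k+1}` is not reducible to `RT^n_k` for
any `n ≥ 1` and `k ≥ 1`. -/
theorem result (m l n k : ℕ) (hl : 1 ≤ l) (hk : 1 ≤ k) :
    (SocReducible m l n k ↔ l = 1 ∨ m = 0 ∨ (m < n ∧ 2 ≤ k) ∨ (m = n ∧ l ≤ k)) ∧
    (SocReducible m l n k ↔ IdReducible m l n k) :=
  classify hl hk

end Pool.Agent.Results.MP_f4da35_lc.Classification
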